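import Pool.Agent.RegJ.MatAna

/-!
# Contact points of a Schur function which is holomorphic across the circle (helper64)
-/

open Filter Topology Complex MeasureTheory Set Metric Matrix
open scoped Real ENNReal NNReal ComplexOrder

namespace Pool.Agent.H64Julia

open Pool.Agent.RegJ

set_option linter.unusedSectionVars false

variable {m n : Type*} [Fintype m] [DecidableEq m] [Fintype n] [DecidableEq n]

theorem nsq_scale {a : Type*} [Fintype a] {y : a → ℂ} (h : 0 < nsq y) :
    nsq ((((Real.sqrt (nsq y))⁻¹ : ℝ) : ℂ) • y) = 1 := by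
  rw [nsq_smul, Complex.norm_real, Real.norm_of_nonneg (by positivity), inv_pow,
    Real.sq_sqrt h.le, inv_mul_cancel₀ h.ne']

/-- The closed form of contractivity. -/
theorem contr_closed {g : ℂ → Matrix n m ℂ} (hg : ∀ z ∈ closedBall (0 : ℂ) 1, AnalyticPt g z)
    (hc : ∀ z ∈ disc, ∀ y, nsq (g z *ᵥ y) ≤ nsq y) {z : ℂ} (hz : ‖z‖ ≤ 1) (y : m → ℂ) :
    nsq (g z *ᵥ y) ≤ nsq y := by
  have hcont : Tendsto g (𝓝 z) (𝓝 (g z)) :=
    tendsto_entries.2 fun i k => (hg z (mem_closedBall_zero_iff.2 hz) i k).continuousAt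
  have h1 : Tendsto (fun r : ℝ => (r : ℂ) * z) (𝓝[<] 1) (𝓝 z) := by
    have h2 : Tendsto (fun r : ℝ => (r : ℂ) * z) (𝓝 1) (𝓝 ((1 : ℝ) * z)) := by
      have hc : Continuous (fun r : ℝ => (r : ℂ) * z) := by fun_prop
      exact hc.tendsto 1
    simp only [Complex.ofReal_one, one_mul] at h2
    exact h2.mono_left nhdsWithin_le_nhds
  refine le_of_tendsto (tendsto_nsq (hcont.comp h1) y) ?_
  filter_upwards [eventually_r] with r hr
  apply hc
  rw [disc, mem_ball_zero_iff, norm_mul, Complex.norm_real, Real.norm_of_nonneg hr.1]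
  nlinarith [norm_nonneg z, hr.1, hr.2]

/-- A vector entry of a matrix function which is analytic on the closed disc satisfies a Lipschitz
condition at every point of it. -/
theorem lipschitz_at {g : ℂ → Matrix n m ℂ} (hg : ∀ z ∈ closedBall (0 : ℂ) 1, AnalyticPt g z)
    (x : m → ℂ) {lam : ℂ} (hl : ‖lam‖ ≤ 1) :
    ∃ C : ℝ, 0 ≤ C ∧ ∀ z ∈ disc, ∀ i, ‖(g z *ᵥ x - g lam *ᵥ x) i‖ ≤ C * ‖lam - z‖ := by
  have h1 : ∀ i : n, ∃ C : ℝ, ∀ z ∈ closedBall (0 : ℂ) 1,
      ‖dslope (fun w => (g w *ᵥ x) i) lam z‖ ≤ C := by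
    intro i
    have hana : ∀ z ∈ closedBall (0 : ℂ) 1, AnalyticAt ℂ (fun w => (g w *ᵥ x) i) z := by
      intro z hz
      have := analyticAt_form (hg z hz) (Pi.single i 1) x
      simpa using this
    apply (isCompact_closedBall (0 : ℂ) 1).exists_bound_of_continuousOn
    intro z hz
    refine ContinuousAt.continuousWithinAt ?_
    by_cases hzl : z = lam
    · rw [hzl, continuousAt_dslope_same]
      exact (hana lam (mem_closedBall_zero_iff.2 hl)).differentiableAt
    · rw [continuousAt_dslope_of_ne hzl]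
      exact (hana z hz).continuousAt
  choose C hC using h1
  refine ⟨∑ i, |C i|, Finset.sum_nonneg fun _ _ => abs_nonneg _, fun z hz i => ?_⟩
  have hz' : z ∈ closedBall (0 : ℂ) 1 := ball_subset_closedBall hz
  have h2 : (g z *ᵥ x - g lam *ᵥ x) i =
      (z - lam) * dslope (fun w => (g w *ᵥ x) i) lam z := by
    have := sub_smul_dslope (fun w => (g w *ᵥ x) i) lam z
    rw [smul_eq_mul] at this
    rw [this]
    rfl
  rw [h2, norm_mul, norm_sub_rev z lam, mul_comm]
  refine mul_le_mul_of_nonneg_right ((hC i z hz').trans ((le_abs_self _).trans ?_)) (norm_nonneg _)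
  exact Finset.single_le_sum (f := fun i => |C i|) (fun _ _ => abs_nonneg _) (Finset.mem_univ i)

/-- **Dichotomy.** -/
theorem contact_or_strict (g : ℂ → Matrix n m ℂ)
    (hg : ∀ z ∈ closedBall (0 : ℂ) 1, AnalyticPt g z)
    (hc : ∀ z ∈ disc, ∀ y, nsq (g z *ᵥ y) ≤ nsq y) :
    (∃ ρ : ℝ, 0 ≤ ρ ∧ ρ < 1 ∧ ∀ z ∈ disc, ∀ y, nsq (g z *ᵥ y) ≤ ρ ^ 2 * nsq y) ∨
    ∃ (lam : ℂ) (x : m → ℂ) (C : ℝ), ‖lam‖ = 1 ∧ nsq x = 1 ∧ nsq (g lam *ᵥ x) = 1 ∧ 0 ≤ C ∧
      ∀ z ∈ disc, ∀ i, ‖(g z *ᵥ x - g lam *ᵥ x) i‖ ≤ C * ‖lam - z‖ := by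
  have hscont : Continuous (nsq : (m → ℂ) → ℝ) := by unfold nsq; fun_prop
  have hnc : Continuous (nsq : (n → ℂ) → ℝ) := by unfold nsq; fun_prop
  set S : Set (m → ℂ) := {x | nsq x = 1} with hS
  have hScomp : IsCompact S := by
    apply Metric.isCompact_of_isClosed_isBounded
    · exact isClosed_eq hscont continuous_const
    · refine (Metric.isBounded_closedBall (x := (0 : m → ℂ)) (r := 1)).subset fun x hx => ?_
      rw [mem_closedBall_zero_iff, pi_norm_le_iff_of_nonneg zero_le_one]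
      intro i
      have h1 := norm_sq_le_nsq x i
      rw [hS, mem_setOf_eq] at hx
      rw [hx] at h1
      nlinarith [norm_nonneg (x i)]
  have hgc : ContinuousOn g (closedBall 0 1) := fun z hz => by
    have : Tendsto g (𝓝 z) (𝓝 (g z)) :=
      tendsto_entries.2 fun i k => (hg z hz i k).continuousAt
    exact ContinuousAt.continuousWithinAt this
  have hzero : ∀ z ∈ disc, ∀ y, nsq y = 0 → nsq (g z *ᵥ y) = 0 := by
    intro z hz y hy
    have := hc z hz y
    rw [hy] at this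
    exact le_antisymm this (nsq_nonneg _)
  by_cases hne : S.Nonempty
  · have hKc : IsCompact (closedBall (0 : ℂ) 1 ×ˢ S) := (isCompact_closedBall _ _).prod hScomp
    have hKn : (closedBall (0 : ℂ) 1 ×ˢ S).Nonempty :=
      ⟨(0, hne.some), by simp, hne.some_mem⟩
    have hF : ContinuousOn (fun p : ℂ × (m → ℂ) => nsq (g p.1 *ᵥ p.2))
        (closedBall (0 : ℂ) 1 ×ˢ S) := by
      refine hnc.comp_continuousOn ?_
      have h1 : ContinuousOn (fun p : ℂ × (m → ℂ) => g p.1) (closedBall (0 : ℂ) 1 ×ˢ S) :=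
        hgc.comp continuousOn_fst fun p hp => hp.1
      have h2 : Continuous (fun q : Matrix n m ℂ × (m → ℂ) => q.1 *ᵥ q.2) :=
        Continuous.matrix_mulVec continuous_fst continuous_snd
      exact h2.comp_continuousOn (h1.prodMk continuousOn_snd)
    obtain ⟨⟨z0, x0⟩, ⟨hz0, hx0⟩, hmax⟩ := hKc.exists_isMaxOn hKn hF
    have hmax' : ∀ z ∈ closedBall (0 : ℂ) 1, ∀ x, nsq x = 1 →
        nsq (g z *ᵥ x) ≤ nsq (g z0 *ᵥ x0) := fun z hz x hx => hmax (a := (z, x)) ⟨hz, hx⟩
    have hx01 : nsq x0 = 1 := hx0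
    set M := nsq (g z0 *ᵥ x0) with hM
    have hM0 : 0 ≤ M := nsq_nonneg _
    rcases lt_or_ge M 1 with hlt | hge
    · left
      refine ⟨Real.sqrt M, Real.sqrt_nonneg _, ?_, ?_⟩
      · rw [Real.sqrt_lt' one_pos, one_pow]
        exact hlt
      · intro z hz y
        rw [Real.sq_sqrt hM0]
        rcases (nsq_nonneg y).eq_or_lt with h0 | h0
        · rw [hzero z hz y h0.symm, ← h0, mul_zero]
        · have h1 := hmax' z (ball_subset_closedBall hz) _ (nsq_scale h0)
          rw [Matrix.mulVec_smul, nsq_smul, Complex.norm_real,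
            Real.norm_of_nonneg (by positivity), inv_pow, Real.sq_sqrt h0.le,
            inv_mul_le_iff₀ h0] at h1
          linarith
    · right
      have hle := contr_closed hg hc (mem_closedBall_zero_iff.1 hz0) x0
      have hM1 : M = 1 := le_antisymm (by rw [hM, ← hx01]; exact hle) hge
      obtain ⟨lam, hl, hl1⟩ : ∃ lam : ℂ, ‖lam‖ = 1 ∧ nsq (g lam *ᵥ x0) = 1 := by
        rcases (mem_closedBall_zero_iff.1 hz0).lt_or_eq with hlt | heq
        · -- interior maximum
          set s : ℂ → ℂ := fun z => star (g z0 *ᵥ x0) ⬝ᵥ (g z *ᵥ x0) with hs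
          have hsn : ∀ z, ‖z‖ ≤ 1 → ‖s z‖ ≤ 1 := by
            intro z hz
            have h1 := cs (g z0 *ᵥ x0) (g z *ᵥ x0)
            have h2 := contr_closed hg hc hz x0
            rw [← hM, hM1, one_mul] at h1
            rw [hx01] at h2
            have h3 : ‖s z‖ ^ 2 ≤ 1 ^ 2 := by rw [one_pow]; exact h1.trans h2
            exact (sq_le_sq₀ (norm_nonneg _) zero_le_one).1 h3
          have hs0 : s z0 = 1 := by
            rw [hs]
            simp only
            rw [star_dot_self, ← hM, hM1, Complex.ofReal_one]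
          have hsd : DifferentiableOn ℂ s (ball 0 1) := fun z hz =>
            (analyticAt_form (hg z (ball_subset_closedBall hz)) _ _).differentiableAt.differentiableWithinAt
          have hconst : EqOn s (Function.const ℂ (s z0)) (ball 0 1) := by
            apply Complex.eqOn_of_isPreconnected_of_isMaxOn_norm (convex_ball 0 1).isPreconnected
              isOpen_ball hsd (mem_ball_zero_iff.2 hlt)
            intro z hz
            simp only [Function.comp_apply, mem_setOf_eq, hs0, norm_one]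
            exact hsn z (mem_ball_zero_iff.1 hz).le
          have hs1 : s 1 = 1 := by
            have hc1 : ContinuousAt s 1 :=
              (analyticAt_form (hg 1 (by simp)) _ _).continuousAt
            have h2 : Tendsto (fun r : ℝ => s (r : ℂ)) (𝓝[<] 1) (𝓝 (s 1)) := by
              have h3 : Tendsto (fun r : ℝ => (r : ℂ)) (𝓝[<] 1) (𝓝 1) := by
                have := Complex.continuous_ofReal.tendsto 1
                rw [Complex.ofReal_one] at this
                exact this.mono_left nhdsWithin_le_nhds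
              exact hc1.tendsto.comp h3
            refine tendsto_nhds_unique h2 (tendsto_const_nhds.congr' ?_)
            filter_upwards [eventually_r] with r hr
            have h4 : (r : ℂ) ∈ ball (0 : ℂ) 1 := by
              rw [mem_ball_zero_iff, Complex.norm_real, Real.norm_of_nonneg hr.1]
              exact hr.2
            rw [hconst h4, Function.const_apply, hs0]
          refine ⟨1, norm_one, le_antisymm ?_ ?_⟩
          · rw [← hx01]
            exact contr_closed hg hc norm_one.le x0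
          · have h1 := cs (g z0 *ᵥ x0) (g 1 *ᵥ x0)
            rw [← hM, hM1, one_mul] at h1
            have h2 : ‖star (g z0 *ᵥ x0) ⬝ᵥ (g 1 *ᵥ x0)‖ = 1 := by
              have : star (g z0 *ᵥ x0) ⬝ᵥ (g 1 *ᵥ x0) = 1 := hs1
              rw [this, norm_one]
            rw [h2, one_pow] at h1
            exact h1
        · exact ⟨z0, heq, by rw [← hM, hM1]⟩
      obtain ⟨C, hC0, hC⟩ := lipschitz_at hg x0 hl.le
      exact ⟨lam, x0, C, hl, hx01, hl1, hC0, hC⟩
  · left
    refine ⟨0, le_rfl, zero_lt_one, fun z hz y => ?_⟩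
    rcases (nsq_nonneg y).eq_or_lt with h0 | h0
    · rw [hzero z hz y h0.symm, ← h0, mul_zero]
    · exact absurd ⟨_, nsq_scale h0⟩ hne

/-- The first case of the dichotomy is strict contractivity at every point of the circle. -/
theorem strict_iff (g : ℂ → Matrix n m ℂ)
    (hg : ∀ z ∈ closedBall (0 : ℂ) 1, AnalyticPt g z)
    (hc : ∀ z ∈ disc, ∀ y, nsq (g z *ᵥ y) ≤ nsq y) :
    (∃ ρ : ℝ, 0 ≤ ρ ∧ ρ < 1 ∧ ∀ z ∈ disc, ∀ y, nsq (g z *ᵥ y) ≤ ρ ^ 2 * nsq y) ↔
      ∀ lam : ℂ, ‖lam‖ = 1 → ∀ x, x ≠ 0 → nsq (g lam *ᵥ x) < nsq x := by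
  constructor
  · rintro ⟨ρ, h0, h1, h⟩ lam hl x hx
    have hx' : 0 < nsq x := lt_of_le_of_ne (nsq_nonneg x) fun h2 => hx (nsq_eq_zero h2.symm)
    have hcont : Tendsto g (𝓝 lam) (𝓝 (g lam)) :=
      tendsto_entries.2 fun i k => (hg lam (mem_closedBall_zero_iff.2 hl.le) i k).continuousAt
    have h3 : Tendsto (fun r : ℝ => (r : ℂ) * lam) (𝓝[<] 1) (𝓝 lam) := by
      have h2 : Tendsto (fun r : ℝ => (r : ℂ) * lam) (𝓝 1) (𝓝 ((1 : ℝ) * lam)) := by
        have hc : Continuous (fun r : ℝ => (r : ℂ) * lam) := by fun_prop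
        exact hc.tendsto 1
      simp only [Complex.ofReal_one, one_mul] at h2
      exact h2.mono_left nhdsWithin_le_nhds
    have h4 : nsq (g lam *ᵥ x) ≤ ρ ^ 2 * nsq x := by
      refine le_of_tendsto (tendsto_nsq (hcont.comp h3) x) ?_
      filter_upwards [eventually_r] with r hr
      apply h
      rw [disc, mem_ball_zero_iff]
      exact norm_dilate hr.1 hr.2 hl
    have h5 : ρ ^ 2 < 1 := by nlinarith
    exact lt_of_le_of_lt h4 (mul_lt_of_lt_one_left hx' h5)
  · intro h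
    rcases contact_or_strict g hg hc with h1 | ⟨lam, x, C, hl, hx, hgx, -, -⟩
    · exact h1
    · have hx0 : x ≠ 0 := by
        rintro rfl
        simp at hx
      have := h lam hl x hx0
      rw [hx, hgx] at this
      exact absurd this (lt_irrefl _)

/-- The contact case with a quadratic bound. -/
theorem contact (g : ℂ → Matrix n m ℂ)
    (hg : ∀ z ∈ closedBall (0 : ℂ) 1, AnalyticPt g z)
    (hc : ∀ z ∈ disc, ∀ y, nsq (g z *ᵥ y) ≤ nsq y)
    (hn : ¬ ∃ ρ : ℝ, 0 ≤ ρ ∧ ρ < 1 ∧ ∀ z ∈ disc, ∀ y, nsq (g z *ᵥ y) ≤ ρ ^ 2 * nsq y) :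
    ∃ (lam : ℂ) (x : m → ℂ) (y : n → ℂ) (C : ℝ), ‖lam‖ = 1 ∧ nsq x = 1 ∧ nsq y = 1 ∧
      y = -(g lam *ᵥ x) ∧ ∀ z ∈ disc, nsq (g z *ᵥ x + y) ≤ C * ‖lam - z‖ ^ 2 := by
  obtain ⟨lam, x, C, hl, hx, hgx, hC0, hC⟩ := (contact_or_strict g hg hc).resolve_left hn
  refine ⟨lam, x, -(g lam *ᵥ x), (Fintype.card n : ℝ) * C ^ 2, hl, hx, by rw [nsq_neg, hgx], rfl,
    fun z hz => ?_⟩
  rw [← sub_eq_add_neg]
  unfold nsq
  calc ∑ i, ‖(g z *ᵥ x - g lam *ᵥ x) i‖ ^ 2 ≤ ∑ _i : n, (C * ‖lam - z‖) ^ 2 := by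
        apply Finset.sum_le_sum
        intro i _
        exact pow_le_pow_left₀ (norm_nonneg _) (hC z hz i) 2
    _ = (Fintype.card n : ℝ) * C ^ 2 * ‖lam - z‖ ^ 2 := by
        rw [Finset.sum_const, Finset.card_univ, nsmul_eq_mul]
        ring

end Pool.Agent.H64Julia
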