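import Mathlib

/-!
# Schwarz-Pick at two points and Julia's lemma (helper64)
-/

set_option autoImplicit false

namespace Pool.Agent.H64Julia

open Set Filter Topology Metric Complex ComplexConjugate

theorem normSq_identity (a w : ℂ) :
    ‖1 - conj a * w‖ ^ 2 - ‖w - a‖ ^ 2 = (1 - ‖a‖ ^ 2) * (1 - ‖w‖ ^ 2) := by
  rw [← Complex.normSq_eq_norm_sq, ← Complex.normSq_eq_norm_sq, ← Complex.normSq_eq_norm_sq,
    ← Complex.normSq_eq_norm_sq]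
  simp only [Complex.normSq_apply, Complex.mul_re, Complex.mul_im, Complex.conj_re,
    Complex.conj_im, Complex.sub_re, Complex.sub_im, Complex.one_re, Complex.one_im]
  ring

theorem one_sub_ne {a w : ℂ} (ha : ‖a‖ < 1) (hw : ‖w‖ < 1) : 1 - conj a * w ≠ 0 := by
  intro h
  have h1 : conj a * w = 1 := by linear_combination -h
  have h2 : ‖conj a * w‖ < 1 := by
    rw [norm_mul, RCLike.norm_conj]
    nlinarith [norm_nonneg a, norm_nonneg w]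
  rw [h1] at h2
  simp at h2

/-- The Moebius map sending `a` to `0`. -/
noncomputable def mob (a w : ℂ) : ℂ := (w - a) / (1 - conj a * w)

theorem norm_mob_lt {a w : ℂ} (ha : ‖a‖ < 1) (hw : ‖w‖ < 1) : ‖mob a w‖ < 1 := by
  unfold mob
  have hne := one_sub_ne ha hw
  rw [norm_div, div_lt_one (norm_pos_iff.mpr hne)]
  rw [← sq_lt_sq₀ (norm_nonneg _) (norm_nonneg _)]
  have key := normSq_identity a w
  have h1 : ‖a‖ ^ 2 < 1 := by nlinarith [norm_nonneg a]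
  have h2 : ‖w‖ ^ 2 < 1 := by nlinarith [norm_nonneg w]
  nlinarith [mul_pos (sub_pos.mpr h1) (sub_pos.mpr h2)]

/-- **Schwarz-Pick** at two points. -/
theorem schwarz_pick {f : ℂ → ℂ} (hf : DifferentiableOn ℂ f (ball 0 1))
    (hm : ∀ z ∈ ball (0 : ℂ) 1, ‖f z‖ < 1) {z w : ℂ} (hz : ‖z‖ < 1) (hw : ‖w‖ < 1) :
    ‖1 - conj (f w) * f z‖ ^ 2 * ((1 - ‖w‖ ^ 2) * (1 - ‖z‖ ^ 2)) ≤
      ‖1 - conj w * z‖ ^ 2 * ((1 - ‖f w‖ ^ 2) * (1 - ‖f z‖ ^ 2)) := by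
  have hw' : ‖-w‖ < 1 := by rwa [norm_neg]
  have hfw : ‖f w‖ < 1 := hm w (mem_ball_zero_iff.2 hw)
  have hfz : ‖f z‖ < 1 := hm z (mem_ball_zero_iff.2 hz)
  have hφm : ∀ u ∈ ball (0 : ℂ) 1, mob (-w) u ∈ ball (0 : ℂ) 1 := fun u hu =>
    mem_ball_zero_iff.2 (norm_mob_lt hw' (mem_ball_zero_iff.1 hu))
  have hφd : DifferentiableOn ℂ (mob (-w)) (ball 0 1) := by
    unfold mob
    exact (differentiableOn_id.sub_const _).div
      ((differentiableOn_const _).sub (differentiableOn_id.const_mul _))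
      (fun u hu => one_sub_ne hw' (mem_ball_zero_iff.1 hu))
  have hcomp : DifferentiableOn ℂ (fun u => f (mob (-w) u)) (ball 0 1) :=
    hf.comp hφd hφm
  have hF : DifferentiableOn ℂ (fun u => mob (f w) (f (mob (-w) u))) (ball 0 1) := by
    unfold mob at hcomp ⊢
    apply (hcomp.sub_const _).div ((differentiableOn_const _).sub (hcomp.const_mul _))
    intro u hu
    exact one_sub_ne hfw (hm _ (hφm u hu))
  have hFm : MapsTo (fun u => mob (f w) (f (mob (-w) u))) (ball 0 1) (closedBall 0 1) := by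
    intro u hu
    rw [mem_closedBall_zero_iff]
    exact (norm_mob_lt hfw (hm _ (hφm u hu))).le
  have hF0 : mob (f w) (f (mob (-w) 0)) = 0 := by simp [mob]
  have hu : ‖mob w z‖ < 1 := norm_mob_lt hw hz
  have hS : ‖mob (f w) (f (mob (-w) (mob w z)))‖ ≤ ‖mob w z‖ :=
    Complex.norm_le_norm_of_mapsTo_ball (f := fun u => mob (f w) (f (mob (-w) u)))
      (R := 1) hF hFm hF0 hu
  have hne := one_sub_ne hw hz
  have hback : mob (-w) (mob w z) = z := by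
    have h1 : (1 : ℂ) - conj w * w ≠ 0 := one_sub_ne hw hw
    have h2 : (1 : ℂ) + conj w * ((z - w) / (1 - conj w * z)) =
        (1 - conj w * w) / (1 - conj w * z) := by
      field_simp
      ring
    unfold mob
    rw [map_neg, sub_neg_eq_add, neg_mul, sub_neg_eq_add, h2, div_add' _ _ _ hne,
      div_div_div_cancel_right₀ hne, div_eq_iff h1]
    ring
  rw [hback] at hS
  unfold mob at hS
  have hne2 := one_sub_ne hfw hfz
  rw [norm_div, norm_div, div_le_div_iff₀ (norm_pos_iff.2 hne2) (norm_pos_iff.2 hne)] at hS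
  have h3 : (‖f z - f w‖ * ‖1 - conj w * z‖) ^ 2 ≤ (‖z - w‖ * ‖1 - conj (f w) * f z‖) ^ 2 :=
    pow_le_pow_left₀ (by positivity) hS 2
  have k1 := normSq_identity w z
  have k2 := normSq_identity (f w) (f z)
  rw [mul_pow, mul_pow] at h3
  rw [← k1, ← k2]
  nlinarith

/-- **Julia's lemma.** -/
theorem julia {f : ℂ → ℂ} (hf : DifferentiableOn ℂ f (ball 0 1))
    (hm : ∀ z ∈ ball (0 : ℂ) 1, ‖f z‖ < 1) {ζ : ℂ} (hζ : ‖ζ‖ = 1) {C : ℝ} {w : ℕ → ℂ}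
    (hw : ∀ n, ‖w n‖ < 1) (hwζ : Tendsto w atTop (𝓝 ζ))
    (hfw : Tendsto (fun n => f (w n)) atTop (𝓝 1))
    (hC : ∀ n, 1 - ‖f (w n)‖ ^ 2 ≤ C * (1 - ‖w n‖ ^ 2)) {z : ℂ} (hz : ‖z‖ < 1) :
    ‖1 - f z‖ ^ 2 * (1 - ‖z‖ ^ 2) ≤ C * (‖ζ - z‖ ^ 2 * (1 - ‖f z‖ ^ 2)) := by
  have hfz : ‖f z‖ < 1 := hm z (mem_ball_zero_iff.2 hz)
  have key : ∀ n, ‖1 - conj (f (w n)) * f z‖ ^ 2 * (1 - ‖z‖ ^ 2) ≤
      C * (‖1 - conj (w n) * z‖ ^ 2 * (1 - ‖f z‖ ^ 2)) := by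
    intro n
    have h1 := schwarz_pick hf hm hz (hw n)
    have h2 : 0 < 1 - ‖w n‖ ^ 2 := by nlinarith [hw n, norm_nonneg (w n)]
    have h3 : 0 ≤ 1 - ‖f z‖ ^ 2 := by nlinarith [norm_nonneg (f z)]
    have h4 : ‖1 - conj (w n) * z‖ ^ 2 * ((1 - ‖f (w n)‖ ^ 2) * (1 - ‖f z‖ ^ 2)) ≤
        ‖1 - conj (w n) * z‖ ^ 2 * ((C * (1 - ‖w n‖ ^ 2)) * (1 - ‖f z‖ ^ 2)) := by
      gcongr
      exact hC n
    have h5 : (‖1 - conj (f (w n)) * f z‖ ^ 2 * (1 - ‖z‖ ^ 2)) * (1 - ‖w n‖ ^ 2) ≤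
        (C * (‖1 - conj (w n) * z‖ ^ 2 * (1 - ‖f z‖ ^ 2))) * (1 - ‖w n‖ ^ 2) := by
      calc (‖1 - conj (f (w n)) * f z‖ ^ 2 * (1 - ‖z‖ ^ 2)) * (1 - ‖w n‖ ^ 2)
          = ‖1 - conj (f (w n)) * f z‖ ^ 2 * ((1 - ‖w n‖ ^ 2) * (1 - ‖z‖ ^ 2)) := by ring
        _ ≤ _ := h1.trans h4
        _ = _ := by ring
    exact le_of_mul_le_mul_right h5 h2
  have l1 : Tendsto (fun n => ‖1 - conj (f (w n)) * f z‖ ^ 2 * (1 - ‖z‖ ^ 2)) atTop
      (𝓝 (‖1 - conj (1 : ℂ) * f z‖ ^ 2 * (1 - ‖z‖ ^ 2))) := by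
    have h0 : Tendsto (fun n => conj (f (w n))) atTop (𝓝 (conj (1 : ℂ))) :=
      (Complex.continuous_conj.tendsto 1).comp hfw
    exact (((h0.mul_const (f z)).const_sub 1).norm.pow 2).mul_const _
  have l2 : Tendsto (fun n => C * (‖1 - conj (w n) * z‖ ^ 2 * (1 - ‖f z‖ ^ 2))) atTop
      (𝓝 (C * (‖1 - conj ζ * z‖ ^ 2 * (1 - ‖f z‖ ^ 2)))) := by
    have h0 : Tendsto (fun n => conj (w n)) atTop (𝓝 (conj ζ)) :=
      (Complex.continuous_conj.tendsto ζ).comp hwζ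
    exact ((((h0.mul_const z).const_sub 1).norm.pow 2).mul_const _).const_mul _
  have h := le_of_tendsto_of_tendsto' l1 l2 key
  have e : ‖1 - conj ζ * z‖ = ‖ζ - z‖ := by
    have h1 : ζ * (1 - conj ζ * z) = ζ - z := by
      have h2 : ζ * conj ζ = 1 := by
        rw [Complex.mul_conj, Complex.normSq_eq_norm_sq, hζ]
        simp
      linear_combination (-z) * h2
    rw [← h1, norm_mul, hζ, one_mul]
  rw [map_one, one_mul, e] at h
  exact h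

/-- Julia's lemma with real parts: `Re ((1+f)/(1-f)) ≥ (1/C) Re ((ζ+z)/(ζ-z))`. -/
theorem julia_re {f : ℂ → ℂ} (hf : DifferentiableOn ℂ f (ball 0 1))
    (hm : ∀ z ∈ ball (0 : ℂ) 1, ‖f z‖ < 1) {ζ : ℂ} (hζ : ‖ζ‖ = 1) {C : ℝ} (hC0 : 0 < C)
    {w : ℕ → ℂ}
    (hw : ∀ n, ‖w n‖ < 1) (hwζ : Tendsto w atTop (𝓝 ζ))
    (hfw : Tendsto (fun n => f (w n)) atTop (𝓝 1))
    (hC : ∀ n, 1 - ‖f (w n)‖ ^ 2 ≤ C * (1 - ‖w n‖ ^ 2)) {z : ℂ} (hz : ‖z‖ < 1) :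
    ((ζ + z) / (ζ - z)).re ≤ C * ((1 + f z) / (1 - f z)).re := by
  have hfz : ‖f z‖ < 1 := hm z (mem_ball_zero_iff.2 hz)
  have h := julia hf hm hζ hw hwζ hfw hC hz
  have re_formula : ∀ a b : ℂ, ((a + b) / (a - b)).re = (‖a‖ ^ 2 - ‖b‖ ^ 2) / ‖a - b‖ ^ 2 := by
    intro a b
    rw [Complex.div_re, ← Complex.normSq_eq_norm_sq, ← Complex.normSq_eq_norm_sq,
      ← Complex.normSq_eq_norm_sq, ← add_div]
    congr 1
    simp only [Complex.normSq_apply, Complex.add_re, Complex.add_im, Complex.sub_re,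
      Complex.sub_im]
    ring
  rw [re_formula, re_formula, hζ, norm_one, one_pow]
  have d1 : 0 < ‖ζ - z‖ ^ 2 := by
    have : ζ - z ≠ 0 := by
      intro h0
      rw [sub_eq_zero] at h0
      rw [h0] at hζ
      linarith
    positivity
  have d2 : 0 < ‖1 - f z‖ ^ 2 := by
    have : (1 : ℂ) - f z ≠ 0 := by
      intro h0
      rw [sub_eq_zero] at h0
      rw [← h0, norm_one] at hfz
      linarith
    positivity
  rw [← mul_div_assoc, div_le_div_iff₀ d1 d2]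
  linarith

end Pool.Agent.H64Julia
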