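import Pool.Agent.RegJ.Smirnov

/-!
# Functions of positive real part and the Smirnov class (helper64)
-/

open Filter Topology Complex MeasureTheory Set Metric
open scoped Real ENNReal NNReal

namespace Pool.Agent.H64Julia

open Pool.Agent.RegJ

theorem maj_inv_aux {f : ℂ → ℂ} (hd : DifferentiableOn ℂ f (ball 0 1))
    (hre : ∀ z ∈ ball (0 : ℂ) 1, 0 < (f z).re) (hb : ∀ z ∈ ball (0 : ℂ) 1, ‖f z‖ ≤ 1) :
    Maj (fun z => (f z)⁻¹) := by
  have hne0 : ∃ z ∈ ball (0 : ℂ) 1, f z ≠ 0 :=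
    ⟨0, by simp, fun h => by have := hre 0 (by simp); rw [h] at this; simp at this⟩
  obtain ⟨g, hgm, hgi, hg0, hgb⟩ := log_integrable hd hb hne0
  refine ⟨g, hgi, hg0, fun z hz => ?_⟩
  have hnorm : ∀ w : ℂ, 0 ≤ w.re → ∀ ε : ℝ, 0 < ε → ε ≤ ‖w + ε‖ ∧ ‖w‖ ≤ ‖w + ε‖ := by
    intro w hw ε hε
    constructor
    · calc ε ≤ (w + ε).re := by simp [hw]
        _ ≤ |(w + ε).re| := le_abs_self _
        _ ≤ ‖w + ε‖ := Complex.abs_re_le_norm _
    · rw [← sq_le_sq₀ (norm_nonneg _) (norm_nonneg _), ← Complex.normSq_eq_norm_sq,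
        ← Complex.normSq_eq_norm_sq, Complex.normSq_apply, Complex.normSq_apply]
      simp only [Complex.add_re, Complex.ofReal_re, Complex.add_im, Complex.ofReal_im, add_zero]
      nlinarith
  have key : ∀ ε : ℝ, 0 < ε → Real.posLog ‖(f z + ε)⁻¹‖ ≤ PI g z := by
    intro ε hε
    refine maj_bound (h := fun z => (f z + ε)⁻¹) ?_ (Maj.of_bound (C := ε⁻¹) ?_) hgi ?_ z hz
    · refine (hd.add_const _).inv fun y hy h0 => ?_
      have := (hnorm (f y) (hre y hy).le ε hε).1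
      rw [h0, norm_zero] at this
      linarith
    · intro y hy
      rw [norm_inv]
      exact inv_anti₀ hε (hnorm (f y) (hre y hy).le ε hε).1
    · filter_upwards [hgb, ae_norm] with ζ hζ hn
      obtain ⟨L, hL, hL0, hLg⟩ := hζ
      have hLre : 0 ≤ L.re := by
        have h1 : Tendsto (fun r : ℝ => (f (r * ζ)).re) (𝓝[<] 1) (𝓝 L.re) :=
          (Complex.continuous_re.tendsto L).comp hL
        refine ge_of_tendsto h1 ?_
        filter_upwards [eventually_r] with r hr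
        have : (r : ℂ) * ζ ∈ ball (0 : ℂ) 1 := mem_ball_zero_iff.2 (norm_dilate hr.1 hr.2 hn)
        exact (hre _ this).le
      have h2 := hnorm L hLre ε hε
      have hne : L + ε ≠ 0 := by
        intro h0
        rw [h0, norm_zero] at h2
        linarith [h2.1]
      refine ⟨(L + ε)⁻¹, ?_, ?_⟩
      · exact Tendsto.inv₀ (Tendsto.add_const _ hL) hne
      · have h3 : ‖(L + ε)⁻¹‖ ≤ ‖L‖⁻¹ := by
          rw [norm_inv]
          exact inv_anti₀ (norm_pos_iff.2 hL0) h2.2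
        refine (Real.posLog_le_posLog (norm_nonneg _) h3).trans ?_
        rw [Real.posLog, Real.log_inv]
        exact max_le (hg0 ζ) hLg
  have hfz : f z ≠ 0 := fun h => by have := hre z hz; rw [h] at this; simp at this
  have hlim : Tendsto (fun ε : ℝ => Real.posLog ‖(f z + ε)⁻¹‖) (𝓝[>] 0)
      (𝓝 (Real.posLog ‖(f z)⁻¹‖)) := by
    refine (Real.continuous_posLog.tendsto _).comp (Tendsto.norm ?_)
    refine Tendsto.inv₀ ?_ hfz
    have h1 : Tendsto (fun ε : ℝ => f z + (ε : ℂ)) (𝓝 0) (𝓝 (f z + ((0 : ℝ) : ℂ))) :=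
      ((Complex.continuous_ofReal.tendsto 0).const_add _)
    rw [Complex.ofReal_zero, add_zero] at h1
    exact h1.mono_left nhdsWithin_le_nhds
  refine le_of_tendsto hlim ?_
  filter_upwards [self_mem_nhdsWithin] with ε hε
  exact key ε hε

theorem maj_inv_of_re_pos {f : ℂ → ℂ} (hd : DifferentiableOn ℂ f (ball 0 1))
    (hre : ∀ z ∈ ball (0 : ℂ) 1, 0 < (f z).re) {C : ℝ}
    (hb : ∀ z ∈ ball (0 : ℂ) 1, ‖f z‖ ≤ C) : Maj (fun z => (f z)⁻¹) := by
  have hC : 0 < C := lt_of_lt_of_le (norm_pos_iff.2 (fun h => by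
    have := hre 0 (by simp)
    rw [h] at this
    simp at this)) (hb 0 (by simp))
  have h1 : Maj (fun z => ((C⁻¹ : ℝ) * f z)⁻¹) := by
    apply maj_inv_aux (hd.const_mul _)
    · intro z hz
      rw [Complex.re_ofReal_mul]
      exact mul_pos (inv_pos.2 hC) (hre z hz)
    · intro z hz
      rw [norm_mul, Complex.norm_real, Real.norm_of_nonneg (inv_nonneg.2 hC.le),
        inv_mul_le_one₀ hC]
      exact hb z hz
  refine (Maj.mul (Maj.const ((C⁻¹ : ℝ) : ℂ)) h1).congr fun z hz => ?_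
  have hC' : ((C⁻¹ : ℝ) : ℂ) ≠ 0 := Complex.ofReal_ne_zero.2 (inv_ne_zero hC.ne')
  rw [mul_inv, ← mul_assoc, mul_inv_cancel₀ hC', one_mul]

/-- A quotient of bounded holomorphic functions with an `L¹` Poisson majorant is in the Smirnov
class. -/
theorem smirnov_of_maj {h : ℂ → ℂ} (hd : DifferentiableOn ℂ h disc) (hm : Maj h) {a b : ℂ → ℂ}
    {C : ℝ} (ha : DifferentiableOn ℂ a disc) (hb : DifferentiableOn ℂ b disc)
    (hab : ∀ z ∈ disc, ‖a z‖ ≤ C ∧ ‖b z‖ ≤ C) (hne : ∃ z ∈ disc, b z ≠ 0)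
    (heq : ∀ z ∈ disc, b z * h z = a z) : Smirnov h := by
  have hC : 0 < C := by
    obtain ⟨z, hz, h0⟩ := hne
    exact lt_of_lt_of_le (norm_pos_iff.2 h0) (hab z hz).2
  have hC' : ((C⁻¹ : ℝ) : ℂ) ≠ 0 := Complex.ofReal_ne_zero.2 (inv_ne_zero hC.ne')
  -- boundary values
  have hex : ∀ᵐ ζ ∂σ, ∃ L, HasBdryValue h ζ L := by
    have h1 := fatou ha (fun z hz => (hab z hz).1)
    obtain ⟨g, -, -, -, hgb⟩ := log_integrable (h := fun z => (C⁻¹ : ℝ) * b z)
      (hb.const_mul _) (fun z hz => by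
        rw [norm_mul, Complex.norm_real, Real.norm_of_nonneg (inv_nonneg.2 hC.le),
          inv_mul_le_one₀ hC]
        exact (hab z hz).2) (by
        obtain ⟨z, hz, h0⟩ := hne
        exact ⟨z, hz, mul_ne_zero hC' h0⟩)
    filter_upwards [h1, hgb, ae_norm] with ζ hζ1 hζ2 hn
    obtain ⟨A, hA⟩ := hζ1
    obtain ⟨L, hL, hL0, -⟩ := hζ2
    refine ⟨(C⁻¹ : ℝ) * A / L, ?_⟩
    have h3 : Tendsto (fun r : ℝ => (C⁻¹ : ℝ) * a (r * ζ) / ((C⁻¹ : ℝ) * b (r * ζ))) (𝓝[<] 1)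
        (𝓝 ((C⁻¹ : ℝ) * A / L)) := (hA.const_mul _).div hL hL0
    refine h3.congr' ?_
    filter_upwards [eventually_r, hL.eventually_ne hL0] with r hr h0
    have hz : (r : ℂ) * ζ ∈ disc := mem_ball_zero_iff.2 (norm_dilate hr.1 hr.2 hn)
    have hb0 : b (r * ζ) ≠ 0 := fun h4 => h0 (by rw [h4, mul_zero])
    rw [mul_div_mul_left _ _ hC', ← heq _ hz, mul_div_cancel_left₀ _ hb0]
  classical
  let hbv : ℂ → ℂ := fun ζ => if hζ : ∃ L, HasBdryValue h ζ L then hζ.choose else 0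
  have hbval : ∀ᵐ ζ ∂σ, HasBdryValue h ζ (hbv ζ) := by
    filter_upwards [hex] with ζ hζ
    simp only [hbv, dif_pos hζ]
    exact hζ.choose_spec
  let un : ℕ → ℂ → ℝ := fun n ζ => Real.posLog ‖h (rad n * ζ)‖
  have hcont : ∀ r : ℝ, 0 ≤ r → r < 1 →
      Integrable (fun ζ => Real.posLog ‖h (r * ζ)‖) σ := by
    intro r hr0 hr1
    apply integrable_of_continuousOn
    exact continuousOn_posLog (h := fun ζ => h (r * ζ))
      (continuousOn_dilate hd.continuousOn hr0 hr1)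
  have huni : ∀ n, Integrable (un n) σ := fun n => hcont _ (rad_pos n).le (rad_lt n)
  let u : ℂ → ℝ := fun ζ => Real.posLog ‖hbv ζ‖
  have hlim : ∀ᵐ ζ ∂σ, Tendsto (fun n => un n ζ) atTop (𝓝 (u ζ)) := by
    filter_upwards [hbval] with ζ hζ
    exact (Real.continuous_posLog.tendsto _).comp ((hζ.comp tendsto_rad).norm)
  have hum : AEStronglyMeasurable u σ :=
    aestronglyMeasurable_of_tendsto_ae _ (fun n => (huni n).aestronglyMeasurable) hlim
  have hu0 : ∀ ζ, 0 ≤ u ζ := fun ζ => Real.posLog_nonneg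
  have claim1 : ∀ G : ℂ → ℝ, Integrable G σ →
      (∀ z ∈ ball (0 : ℂ) 1, Real.posLog ‖h z‖ ≤ PI G z) → ∀ r : ℝ, 0 ≤ r → r < 1 →
      ∫⁻ ζ, ENNReal.ofReal (Real.posLog ‖h (r * ζ)‖) ∂σ ≤ ENNReal.ofReal (∫ ζ, |G ζ| ∂σ) := by
    intro G hG hGb r hr0 hr1
    rw [← ofReal_integral_eq_lintegral_ofReal (hcont r hr0 hr1)
      (Eventually.of_forall fun _ => Real.posLog_nonneg)]
    apply ENNReal.ofReal_le_ofReal
    refine le_trans ?_ (PI_contract hG hr0 hr1)
    apply integral_mono_ae (hcont r hr0 hr1) (integrable_PI_dilate hG hr0 hr1).norm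
    filter_upwards [ae_norm] with ζ hn
    have hz : (r : ℂ) * ζ ∈ ball (0 : ℂ) 1 := mem_ball_zero_iff.2 (norm_dilate hr0 hr1 hn)
    exact (hGb _ hz).trans (le_abs_self _)
  have claim2 : ∫⁻ ζ, ENNReal.ofReal (u ζ) ∂σ ≤
      ⨆ r ∈ Ico (0 : ℝ) 1, ∫⁻ ζ, ENNReal.ofReal (Real.posLog ‖h (r * ζ)‖) ∂σ := by
    have h1 : ∫⁻ ζ, ENNReal.ofReal (u ζ) ∂σ =
        ∫⁻ ζ, liminf (fun n => ENNReal.ofReal (un n ζ)) atTop ∂σ := by
      apply lintegral_congr_ae
      filter_upwards [hlim] with ζ hζ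
      exact ((ENNReal.continuous_ofReal.tendsto _).comp hζ).liminf_eq.symm
    rw [h1]
    refine (lintegral_liminf_le' fun n => (huni n).aestronglyMeasurable.aemeasurable.ennreal_ofReal).trans ?_
    refine liminf_le_of_le (by isBoundedDefault) fun x hx => ?_
    obtain ⟨n, hn⟩ := hx.exists
    exact hn.trans (le_iSup₂_of_le (rad n) ⟨(rad_pos n).le, rad_lt n⟩ le_rfl)
  obtain ⟨g, hg, hg0, hgb⟩ := id hm
  have hfin : ∫⁻ ζ, ENNReal.ofReal (u ζ) ∂σ < ∞ :=
    (claim2.trans (iSup₂_le fun r hr => claim1 g hg hgb r hr.1 hr.2)).trans_lt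
      ENNReal.ofReal_lt_top
  have hui : Integrable u σ := by
    refine ⟨hum, ?_⟩
    rw [hasFiniteIntegral_iff_norm]
    refine lt_of_le_of_lt (le_of_eq ?_) hfin
    apply lintegral_congr
    intro ζ
    rw [Real.norm_eq_abs, abs_of_nonneg (hu0 ζ)]
  have hPu := maj_bound hd hm (g₀ := u) hui (by
    filter_upwards [hbval] with ζ hζ
    exact ⟨hbv ζ, hζ, le_rfl⟩)
  refine ⟨hd, ⟨a, b, C, ha, hb, hab, hne, heq⟩, hbv, hbval, le_antisymm ?_ claim2, hfin⟩
  refine iSup₂_le fun r hr => ?_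
  refine (claim1 u hui hPu r hr.1 hr.2).trans (le_of_eq ?_)
  rw [← ofReal_integral_eq_lintegral_ofReal hui (Eventually.of_forall hu0)]
  congr 1
  exact integral_congr_ae (Eventually.of_forall fun ζ => abs_of_nonneg (hu0 ζ))

/-- The reciprocal of a bounded function of positive real part is in the Smirnov class. -/
theorem smirnov_inv_of_re_pos {f : ℂ → ℂ} (hd : DifferentiableOn ℂ f disc)
    (hre : ∀ z ∈ disc, 0 < (f z).re) {C : ℝ} (hb : ∀ z ∈ disc, ‖f z‖ ≤ C) :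
    Smirnov (fun z => (f z)⁻¹) := by
  have hne : ∀ z ∈ disc, f z ≠ 0 := fun z hz h => by
    have := hre z hz
    rw [h] at this
    simp at this
  refine smirnov_of_maj (hd.inv hne) (maj_inv_of_re_pos hd hre hb) (a := fun _ => 1) (b := f)
    (C := max 1 C) (differentiableOn_const _) hd (fun z hz => ⟨?_, (hb z hz).trans (le_max_right _ _)⟩)
    ⟨0, by simp [disc], hne 0 (by simp [disc])⟩ fun z hz => mul_inv_cancel₀ (hne z hz)
  rw [norm_one]
  exact le_max_left _ _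

theorem smirnov_inv_one_sub : Smirnov (fun z => (1 - z)⁻¹) := by
  have hn : ∀ z ∈ disc, ‖z‖ < 1 := fun z hz => mem_ball_zero_iff.1 hz
  refine smirnov_inv_of_re_pos (f := fun z => 1 - z) (C := 2)
    ((differentiableOn_const _).sub differentiableOn_id) (fun z hz => ?_) fun z hz => ?_
  · have h1 := (Complex.re_le_norm z).trans_lt (hn z hz)
    simp only [Complex.sub_re, Complex.one_re]
    linarith
  · refine (norm_sub_le _ _).trans ?_
    rw [norm_one]
    linarith [hn z hz]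

end Pool.Agent.H64Julia
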